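import Pool.Agent.Q231.NewtonPyr.Basic

/-!
# The Newton covering number of a pyramid is not always one more than that of its base

For `d = 2` and `h = 1/10` the right pyramid `P^2(h)` is the flat isosceles triangle with base `1`
and height `1/10`.  Two congruent copies of it cover a neighbourhood of it, so that
`N*(P^2(1/10)) = 2`, while `N*(C^1) + 1 = 3`.
-/

namespace Pool.Agent.Results.MP_5875c4_co.FlatPyramid

open Pool.Agent.Q231.NewtonPyr

theorem result :
    (newton (pyramid 1 (1 / 10)) = 2 ∧ newton (cube 1) = 2) ∧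
    ¬ ∀ k : ℕ, 1 ≤ k → ∀ h : ℝ, 0 < h → newton (pyramid k h) = newton (cube k) + 1 := by
  refine ⟨⟨newton_flat, newton_cube_one⟩, fun H => ?_⟩
  have h1 := H 1 le_rfl (1 / 10) (by norm_num)
  rw [newton_flat, newton_cube_one] at h1
  exact absurd h1 (by decide)

end Pool.Agent.Results.MP_5875c4_co.FlatPyramid
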